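import Pool.Agent.NH34.TC.All

/-!
# The momentum distribution of the dilute Bose gas above `√ρ`, and the sharp contribution of these
momenta to the depletion of the condensate

Setting: `N` particles of mass `m` in the periodic box of side `ℓ`, density `ρ = N / ℓ³`, pair
interaction `v ≥ 0`, integrable and even (no hard core), `∫ v > 0`, scattering length `a`
(`scatLen m v`, the variational definition of the problem).  Positions are written in the rescaled
variable `y = x / ℓ`: an `N`-particle state is a function `ψ : Cfg N → ℂ` on `(ℝ³/ℤ³)^N` with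
normalised Haar measure, and with `ψ = ∑_M (coef ψ M) e^{2πi ∑_j M_j · y_j}`

* `kinE q ψ = ∑_M (∑_j q |M_j|²) |coef ψ M|²`,
* `perPot v ℓ` is the periodisation of `v` (in the variable `y`), `potE W ψ = ∫ ∑_{i<j} W (y_i - y_j) |ψ|²`,
* `form m v ℓ ψ` is the quadratic form of the Hamiltonian `H_N` of the problem,
* `occE ψ A = ∑_M #{j | A (M_j)} |coef ψ M|²` is the expected number of particles whose momentum label
  `n` (momentum `p = 2π n / ℓ`) satisfies `A`; `number ψ A` is the same for a set `A`, as a real number.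

The theorem of Lee, Huang and Yang to be proved predicts the momentum distribution
`n_p = (1/2) ((κ + g) / √(κ² + 2 g κ) - 1)`, `κ = p²/2m`, `g = 4πaρ/m`; its sum over `p ≠ 0` gives the
conjectured depletion `(8 / (3√π)) √(ρ a³) N`.  For `p² ≫ ρ` this is `n_p = (4πaρ)² / p⁴`, and the
number of particles with `p² > P` is `8 a² ρ N / √P`.

Theorem.  For every `ε > 0` there are `c, C, K, δ > 0` such that for all densities `ρ` and all `P` with
`K ρ ≤ P ≤ δ`, for all large `N`, every normalised state `ψ` whose energy exceeds the infimum by at most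
`c ρ √P N` (in particular the ground state) satisfies, with `low` the expected number of particles with
`0 < p² ≤ P`:

1. for every set `A` of momenta with `p² > P` (and `A = -A`) the expected number of particles with
   momentum in `A` is `∑_{p ∈ A} (4πaρ)²/p⁴`, up to the error `ε ρ N / √P + C (ρ/P) low`;
2. the expected number of particles with `p² > P` is `8 a² ρ N / √P` up to the same error;
3. at least `(8 a² - ε) ρ N / √P` particles are not in the condensate.

There is no assumption on the condensate.  With `P = K ρ` and `K` large: if the depletion is of the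
conjectured order `√ρ` (or only `≪ K √ρ`), then the term `C (ρ/P) low` is negligible and the momentum
distribution above `√(K ρ)` is the one of Lee, Huang and Yang, with the exact constants; and in all
cases, by 3., the depletion is at least the contribution `(8 a² - ε) √(ρ/K)` of these momenta, with the
exact constant `8 a²`.  For `√P` between `√(K ρ)` and a small microscopic constant this is the law
`n_p = (4πaρ)²/p⁴` (contact of the dilute gas) in the thermodynamic limit.

Idea of the proof.  Add `± t p²/2m`, `t` small, to the kinetic energy of the momenta in `A`, suitably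
weighted, and penalise the momenta with `0 < p² ≤ P`.  The completed square lower bound of
Brietzke-Fournais-Solovej type for the penalised Hamiltonian (`lowerA` of the starting files) and the
trial state (`upperB`) are compared: the errors are `O(ρ^{3/2} N)` and `ρ low`, while the derivative with
respect to `t` is the kinetic energy of the momenta in `A`, of the larger order `ρ √P N`.  The effective
interaction of the scattering problem on the torus (with gap `≈ ρ`, truncated potential and finitely many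
modes) is shown to converge to `4πa/m` uniformly for `p² ≤ δ`.

Parts by several authors: see the files `Pool/Agent/NH34/TC`.
-/

set_option autoImplicit false

open MeasureTheory UnitAddTorus
open scoped ENNReal

namespace Pool.Agent.Results.MP_4952d6_mp.MomentumTail

open Pool.Agent.H751R2.LHY

noncomputable section

/-- the scattering length: `4πa/m` is the infimum of `∫ (|∇φ|²/m + v (1-φ)²)` over the functions `φ` of
class `C¹` with compact support (`1 - φ` is the function `ψ` of the definition in the problem) -/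
def scatLen (m : ℝ) (v : (Fin 3 → ℝ) → ℝ) : ℝ :=
  m / (4 * Real.pi) * sInf {E : ℝ | ∃ φ : (Fin 3 → ℝ) → ℝ, ContDiff ℝ 1 φ ∧ HasCompactSupport φ ∧
    E = ∫ x, (1 / m * ∑ a, (fderiv ℝ φ x (Pi.single a 1)) ^ 2 + v x * (1 - φ x) ^ 2)}

/-- `|p|²` for the momentum `p = 2πn/ℓ` -/
def psq (ℓ : ℝ) (n : Mom) : ℝ := (2 * Real.pi / ℓ) ^ 2 * ∑ a, (n a : ℝ) ^ 2

/-- the quadratic form of the Hamiltonian, `∞` outside of the form domain -/
def form (m : ℝ) (v : (Fin 3 → ℝ) → ℝ) (ℓ : ℝ) {N : ℕ} (ψ : Cfg N → ℂ) : ℝ≥0∞ :=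
  kinE (1 / (2 * m) * (2 * Real.pi / ℓ) ^ 2) ψ + potE (perPot v ℓ) ψ

/-- normalised states whose energy exceeds the infimum by at most `η` -/
def NearGround (m : ℝ) (v : (Fin 3 → ℝ) → ℝ) (ℓ η : ℝ) {N : ℕ} (ψ : Cfg N → ℂ) : Prop :=
  MemLp ψ 2 ∧ ∫ x, ‖ψ x‖ ^ 2 = 1 ∧ ∀ φ : Cfg N → ℂ, MemLp φ 2 → ∫ x, ‖φ x‖ ^ 2 = 1 →
    form m v ℓ ψ ≤ form m v ℓ φ + ENNReal.ofReal η

open Classical in
/-- the expected number of particles with momentum label in `A` -/
def number {N : ℕ} (ψ : Cfg N → ℂ) (A : Set Mom) : ℝ := (occE ψ (fun n => n ∈ A)).toReal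

theorem result (m : ℝ) (hm : 0 < m) (v : (Fin 3 → ℝ) → ℝ) (hvm : Measurable v)
    (hv : Integrable v) (h0 : ∀ x, 0 ≤ v x) (he : ∀ x, v (-x) = v x) (hV : 0 < ∫ x, v x) :
    0 < scatLen m v ∧ ∀ ε : ℝ, 0 < ε → ∃ c C K δ : ℝ, 0 < c ∧ 0 < C ∧ 0 < K ∧ 0 < δ ∧
      ∀ ρ P : ℝ, 0 < ρ → K * ρ ≤ P → P ≤ δ → ∃ N₀ : ℕ, ∀ N : ℕ, N₀ ≤ N →
      ∀ ℓ : ℝ, 0 < ℓ → (N : ℝ) = ρ * ℓ ^ 3 →
      ∀ ψ : Cfg N → ℂ, NearGround m v ℓ (c * ρ * √P * N) ψ →
        (∀ A : Set Mom, (∀ n, -n ∈ A ↔ n ∈ A) → (∀ n ∈ A, P < psq ℓ n) →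
          |number ψ A - ∑' n : A, (4 * Real.pi * scatLen m v * ρ) ^ 2 / psq ℓ n ^ 2| ≤
            ε * ρ * N / √P + C * (ρ / P) * number ψ {n | n ≠ 0 ∧ psq ℓ n ≤ P}) ∧
        |number ψ {n | P < psq ℓ n} - 8 * scatLen m v ^ 2 * ρ * N / √P| ≤
            ε * ρ * N / √P + C * (ρ / P) * number ψ {n | n ≠ 0 ∧ psq ℓ n ≤ P} ∧
        (8 * scatLen m v ^ 2 - ε) * ρ * N / √P ≤ number ψ {n | n ≠ 0} := by
  classical
  have hsc : scatLen m v = m / (4 * Real.pi) * MT.scC (2 * (1 / (2 * m))) v := by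
    have e : 2 * (1 / (2 * m)) = 1 / m := by field_simp
    rw [e]
    rfl
  obtain ⟨ha, hmain⟩ := MT.main MT.t04 MT.a16 MT.t18 MT.a19 v ⟨hvm, hv, h0, he, hV⟩ m hm
    (scatLen m v) hsc
  refine ⟨ha, fun ε hε => ?_⟩
  obtain ⟨c, C, K, δ, hc, hC, hK, hδ, h⟩ := hmain ε hε
  refine ⟨c, C, K, δ, hc, hC, hK, hδ, fun ρ P hρ hKρ hPδ => ?_⟩
  obtain ⟨N₀, hN₀⟩ := h ρ P hρ hKρ hPδ
  refine ⟨N₀, fun N hN ℓ hℓ hNℓ ψ hψ => ?_⟩
  obtain ⟨h1, h2, h3⟩ := hN₀ N hN ℓ hℓ hNℓ ψ hψ
  have hnum : ∀ (A : Set Mom) (B : Mom → Prop) [DecidablePred B], (∀ n, B n ↔ n ∈ A) →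
      (occE ψ B).toReal = number ψ A := by
    intro A B _ hAB
    unfold number
    rw [occE_congr ψ B (fun n => n ∈ A) hAB]
  have hlow := hnum {n | n ≠ 0 ∧ psq ℓ n ≤ P}
    (fun n => n ≠ 0 ∧ (2 * Real.pi / ℓ) ^ 2 * Pool.Agent.H751R2.LHY.sq n ≤ P) (fun n => Iff.rfl)
  have hup := hnum {n | P < psq ℓ n}
    (fun n => P < (2 * Real.pi / ℓ) ^ 2 * Pool.Agent.H751R2.LHY.sq n) (fun n => Iff.rfl)
  have hex := hnum {n | n ≠ 0} (fun n => n ≠ 0) (fun n => Iff.rfl)
  rw [hlow] at h1 h2
  rw [hup] at h2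
  rw [hex] at h3
  refine ⟨fun A hA hAP => ?_, h2, h3⟩
  have h4 := h1 (fun n => n ∈ A) hA hAP
  have h5 : ∑' n : A, (4 * Real.pi * scatLen m v * ρ) ^ 2 / psq ℓ n ^ 2 =
      ∑' n, (if n ∈ A then MT.ref (scatLen m v) ρ ℓ n else 0) := by
    rw [tsum_subtype A (fun n => (4 * Real.pi * scatLen m v * ρ) ^ 2 / psq ℓ n ^ 2)]
    refine tsum_congr fun n => ?_
    by_cases hn : n ∈ A
    · rw [Set.indicator_of_mem hn, if_pos hn]
      rfl
    · rw [Set.indicator_of_notMem hn, if_neg hn]
  rw [h5]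
  rw [← hnum A (fun n => n ∈ A) (fun n => Iff.rfl)]
  exact h4

end

end Pool.Agent.Results.MP_4952d6_mp.MomentumTail
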